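import Pool.Agent.H664.FH.Stm
import Pool.Graph.R_seed8.W996.EC.Final

/-! FH project, job CURVE, part B: a real linear form with `ℚ`-independent coefficients of the logarithms
of units on a curve is unbounded. -/

set_option autoImplicit false

namespace Pool.Agent.H287.FH.CURVE

open Filter Topology Polynomial Pool.Agent Pool.Agent.W996.EC Pool.Agent.H664.FH W973.EC

/-- multiplicative independence modulo constants of the functions `R l`, `l ∈ J` -/
def IndJ {n : ℕ} (T : Set (ℂ × ℂ)) (R : Fin n → ℂ × ℂ → ℂ) (J : Finset (Fin n)) : Prop :=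
  ∀ m : Fin n → ℤ, (∀ l, l ∉ J → m l = 0) → m ≠ 0 → ¬ ∃ c : ℂ, ∀ p ∈ T, ∏ i, R i p ^ m i = c

theorem indJ_empty {n : ℕ} (T : Set (ℂ × ℂ)) (R : Fin n → ℂ × ℂ → ℂ) : IndJ T R ∅ := by
  intro m hm hne
  exact absurd (funext fun l => hm l (Finset.notMem_empty l)) hne

theorem exists_max {n : ℕ} (T : Set (ℂ × ℂ)) (R : Fin n → ℂ × ℂ → ℂ) :
    ∃ J : Finset (Fin n), IndJ T R J ∧ ∀ l, l ∉ J → ¬ IndJ T R (insert l J) := by
  classical
  obtain ⟨J, hJ, hmax⟩ := Finset.exists_max_image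
    ((Finset.univ : Finset (Finset (Fin n))).filter (fun J => IndJ T R J)) Finset.card
    ⟨∅, by simp [indJ_empty]⟩
  refine ⟨J, (Finset.mem_filter.1 hJ).2, fun l hl h => ?_⟩
  have h1 := hmax (insert l J) (by simp [h])
  rw [Finset.card_insert_of_notMem hl] at h1
  omega

/-- a unit with a constant nonzero power is constant on a preconnected set -/
theorem const_of_zpow {T : Set (ℂ × ℂ)} (hT : IsPreconnected T) {f : ℂ × ℂ → ℂ}
    (hf : ContinuousOn f T) (h0 : ∀ p ∈ T, f p ≠ 0) {k : ℤ} (hk : k ≠ 0) {c : ℂ}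
    (hc : ∀ p ∈ T, f p ^ k = c) : ∃ c', ∀ p ∈ T, f p = c' := by
  rcases T.eq_empty_or_nonempty with rfl | ⟨p0, hp0⟩
  · exact ⟨0, fun p hp => absurd hp (Set.notMem_empty p)⟩
  -- reduce to a natural exponent
  obtain ⟨d, hd, c1, hc1⟩ : ∃ d : ℕ, 0 < d ∧ ∃ c1 : ℂ, ∀ p ∈ T, f p ^ d = c1 := by
    rcases lt_or_gt_of_ne hk with h | h
    · refine ⟨(-k).toNat, by omega, c⁻¹, fun p hp => ?_⟩
      have h1 : ((-k).toNat : ℤ) = -k := Int.toNat_of_nonneg (by omega)
      rw [← zpow_natCast, h1, zpow_neg, hc p hp]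
    · refine ⟨k.toNat, by omega, c, fun p hp => ?_⟩
      have h1 : ((k).toNat : ℤ) = k := Int.toNat_of_nonneg (by omega)
      rw [← zpow_natCast, h1, hc p hp]
  have hfin : {w : ℂ | w ^ d = c1}.Finite := by
    have hne : (X ^ d - C c1 : ℂ[X]) ≠ 0 := X_pow_sub_C_ne_zero hd c1
    refine ((X ^ d - C c1 : ℂ[X]).roots.toFinset.finite_toSet).subset fun w hw => ?_
    simp only [Finset.mem_coe, Multiset.mem_toFinset]
    rw [mem_roots hne, IsRoot.def]
    simp only [eval_sub, eval_pow, eval_X, eval_C]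
    rw [Set.mem_ofPred_eq] at hw
    rw [hw, sub_self]
  obtain ⟨c', -, h2⟩ := hT.eqOn_const_of_mapsTo hfin.isDiscrete hf
    (fun p hp => hc1 p hp) ⟨f p0, hc1 p0 hp0⟩
  exact ⟨c', fun p hp => h2 hp⟩

theorem unb {n : ℕ} {F : ℂ[X][X]} {h : ℂ[X]} {R : Fin n → ℂ × ℂ → ℂ} (hc : Cov F h)
    (hR : ∀ i, Reg (TT F h) (R i)) (hR0 : ∀ i, ∀ p ∈ TT F h, R i p ≠ 0)
    (hconn : IsPreconnected (TT F h)) (hpos : S_pos) (hne : ∃ i, ¬ ∃ c, ∀ p ∈ TT F h, R i p = c)
    {α : Fin n → ℝ} (hα : QI α) (σ : ℝ) : ∃ p ∈ TT F h, σ ≤ uu α R p := by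
  classical
  set T := TT F h with hTdef
  obtain ⟨J, hJ, hmax⟩ := exists_max T R
  -- relations for the indices outside `J`
  have hrel : ∀ l, l ∉ J → ∃ m : Fin n → ℤ, (∀ i, i ∉ insert l J → m i = 0) ∧ m l ≠ 0 ∧
      ∃ c : ℂ, ∀ p ∈ T, ∏ i, R i p ^ m i = c := by
    intro l hl
    have h1 := hmax l hl
    unfold IndJ at h1
    push Not at h1
    obtain ⟨m, hm1, hm2, c, hm3⟩ := h1
    refine ⟨m, hm1, ?_, c, hm3⟩
    intro h0
    refine hJ m (fun i hi => ?_) hm2 ⟨c, hm3⟩
    by_cases hil : i = l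
    · rw [hil, h0]
    · exact hm1 i (by rw [Finset.mem_insert, not_or]; exact ⟨hil, hi⟩)
  choose! M hM1 hM2 cc hM3 using hrel
  -- `J` is nonempty
  have hJne : J.Nonempty := by
    by_contra hJe
    rw [Finset.not_nonempty_iff_eq_empty] at hJe
    obtain ⟨i, hi⟩ := hne
    have hiJ : i ∉ J := by rw [hJe]; exact Finset.notMem_empty i
    apply hi
    apply const_of_zpow hconn (reg_cont (hR i)) (hR0 i) (hM2 i hiJ) (c := cc i)
    intro p hp
    rw [← hM3 i hiJ p hp]
    symm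
    apply Finset.prod_eq_single_of_mem i (Finset.mem_univ i)
    intro j _ hj
    rw [hM1 i hiJ j (by rw [hJe]; simpa using hj), zpow_zero]
  -- the coefficients
  set s := J.card with hs
  let e : Fin s ≃ J := J.equivFin.symm
  let β : Fin s → ℝ := fun j => α (e j) - ∑ l ∈ Finset.univ.filter (fun l => l ∉ J), α l * (M l (e j) : ℝ) / (M l l : ℝ)
  let R' : Fin s → ℂ × ℂ → ℂ := fun j => R (e j)
  have hind : Indep T R' := by
    refine ⟨fun i => hR _, fun i => hR0 _, fun m' hm' => ?_⟩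
    rintro ⟨c, hc'⟩
    refine hJ (fun l => if hl : l ∈ J then m' (e.symm ⟨l, hl⟩) else 0) (fun l hl => by simp [hl]) ?_ ⟨c, fun p hp => ?_⟩
    · intro h0
      apply hm'
      funext j
      have h1 := congrFun h0 (e j)
      simpa using h1
    · rw [← hc' p hp]
      rw [← Finset.prod_subset (Finset.subset_univ J)]
      · rw [← Finset.prod_coe_sort J, ← e.prod_comp]
        apply Finset.prod_congr rfl
        intro j _
        simp [R']
      · intro l _ hl
        simp [hl]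
  have hs0 : 0 < s := Finset.card_pos.2 hJne
  have hβ : β ≠ 0 := by
    intro h0
    set j0 : Fin s := ⟨0, hs0⟩ with hj0
    have h1 : α (e j0) - ∑ l ∈ Finset.univ.filter (fun l => l ∉ J), α l * (M l (e j0) : ℝ) / (M l l : ℝ) = 0 := congrFun h0 j0
    set O := Finset.univ.filter (fun l => l ∉ J) with hO
    have hO' : ∀ l ∈ O, M l l ≠ 0 := fun l hl => hM2 l (Finset.mem_filter.1 hl).2
    have hej : ((e j0 : J) : Fin n) ∉ O := by
      rw [hO, Finset.mem_filter]
      push Not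
      intro _
      exact (e j0).2
    have hK : (∏ l ∈ O, M l l) ≠ 0 := Finset.prod_ne_zero_iff.2 hO'
    have h2 := hα (fun i => if i ∈ O then - (M i (e j0) * ∏ l ∈ O.erase i, M l l) else
      if i = (e j0 : Fin n) then ∏ l ∈ O, M l l else 0) (by
      have h3 : ∑ l, (((if l ∈ O then - (M l (e j0) * ∏ l' ∈ O.erase l, M l' l') else
          if l = (e j0 : Fin n) then ∏ l ∈ O, M l l else 0 : ℤ)) : ℝ) * α l =
          (∏ l ∈ O, (M l l : ℝ)) * (α (e j0) - ∑ l ∈ O, α l * (M l (e j0) : ℝ) / (M l l : ℝ)) := by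
        rw [← Finset.sum_filter_add_sum_filter_not Finset.univ (fun l => l ∈ O)]
        have e1 : ∑ l ∈ Finset.univ.filter (fun l => l ∈ O), (((if l ∈ O then - (M l (e j0) * ∏ l' ∈ O.erase l, M l' l') else
          if l = (e j0 : Fin n) then ∏ l ∈ O, M l l else 0 : ℤ)) : ℝ) * α l =
          - ((∏ l ∈ O, (M l l : ℝ)) * ∑ l ∈ O, α l * (M l (e j0) : ℝ) / (M l l : ℝ)) := by
          have : Finset.univ.filter (fun l => l ∈ O) = O := by ext l; simp
          rw [this, Finset.mul_sum, ← Finset.sum_neg_distrib]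
          apply Finset.sum_congr rfl
          intro l hl
          rw [if_pos hl, ← Finset.mul_prod_erase O (fun l => (M l l : ℝ)) hl]
          have h4 : (M l l : ℝ) ≠ 0 := by exact_mod_cast hO' l hl
          push_cast
          field_simp
        have e2 : ∑ l ∈ Finset.univ.filter (fun l => ¬ l ∈ O), (((if l ∈ O then - (M l (e j0) * ∏ l' ∈ O.erase l, M l' l') else
          if l = (e j0 : Fin n) then ∏ l ∈ O, M l l else 0 : ℤ)) : ℝ) * α l = (∏ l ∈ O, (M l l : ℝ)) * α (e j0) := by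
          rw [Finset.sum_eq_single_of_mem ((e j0 : J) : Fin n) (by simp [hej])]
          · rw [if_neg hej, if_pos rfl]
            push_cast
            rfl
          · intro l hl hle
            rw [if_neg (Finset.mem_filter.1 hl).2, if_neg hle]
            simp
        rw [e1, e2]
        ring
      rw [h3, h1, mul_zero])
    have h5 := congrFun h2 (e j0 : Fin n)
    simp only [if_neg hej, Pi.zero_apply] at h5
    exact hK (by simpa using h5)
  -- comparison of the two linear forms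
  have hcmp : ∃ κ : ℝ, ∀ p ∈ T, uu α R p = uu β R' p + κ := by
    set O := Finset.univ.filter (fun l => l ∉ J) with hO
    refine ⟨∑ l ∈ O, α l * (Real.log ‖cc l‖ / (M l l : ℝ)), fun p hp => ?_⟩
    have hl : ∀ l ∈ O, Real.log ‖R l p‖ = Real.log ‖cc l‖ / (M l l : ℝ) -
        ∑ j : Fin s, (M l (e j) : ℝ) / (M l l : ℝ) * Real.log ‖R (e j) p‖ := by
      intro l hl
      have hlJ : l ∉ J := (Finset.mem_filter.1 hl).2
      have h4 : (M l l : ℝ) ≠ 0 := by exact_mod_cast hM2 l hlJ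
      have h5 := congrArg (fun w => Real.log ‖w‖) (hM3 l hlJ p hp)
      simp only [norm_prod, norm_zpow] at h5
      rw [Real.log_prod (by
        intro i _
        exact zpow_ne_zero _ (norm_ne_zero_iff.2 (hR0 i p hp)))] at h5
      simp_rw [Real.log_zpow] at h5
      have h6 : ∑ i, (M l i : ℝ) * Real.log ‖R i p‖ = (M l l : ℝ) * Real.log ‖R l p‖ +
          ∑ j : Fin s, (M l (e j) : ℝ) * Real.log ‖R (e j) p‖ := by
        rw [← Finset.sum_subset (Finset.subset_univ (insert l J)), Finset.sum_insert hlJ]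
        · congr 1
          rw [← Finset.sum_coe_sort J, ← e.sum_comp]
        · intro i _ hi
          rw [hM1 l hlJ i hi]; simp
      rw [h6] at h5
      rw [← h5]
      rw [add_div, mul_div_cancel_left₀ _ h4, Finset.sum_div]
      have h7 : ∑ j : Fin s, (M l (e j) : ℝ) / (M l l : ℝ) * Real.log ‖R (e j) p‖ =
        ∑ j : Fin s, (M l (e j) : ℝ) * Real.log ‖R (e j) p‖ / (M l l : ℝ) :=
        Finset.sum_congr rfl fun j _ => by ring
      rw [h7]; ring
    have e1 : uu α R p = ∑ j : Fin s, α (e j) * Real.log ‖R (e j) p‖ + ∑ l ∈ O, α l * Real.log ‖R l p‖ := by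
      unfold uu
      rw [← Finset.sum_filter_add_sum_filter_not Finset.univ (fun l => l ∈ J)]
      congr 1
      have : Finset.univ.filter (fun l => l ∈ J) = J := by ext l; simp
      rw [this, ← Finset.sum_coe_sort J, ← e.sum_comp]
    rw [e1]
    have e2 : ∑ l ∈ O, α l * Real.log ‖R l p‖ = ∑ l ∈ O, α l * (Real.log ‖cc l‖ / (M l l : ℝ)) -
        ∑ j : Fin s, (∑ l ∈ O, α l * (M l (e j) : ℝ) / (M l l : ℝ)) * Real.log ‖R (e j) p‖ := by
      simp_rw [Finset.sum_mul]
      rw [Finset.sum_comm, ← Finset.sum_sub_distrib]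
      apply Finset.sum_congr rfl
      intro l hl'
      rw [hl l hl', mul_sub, Finset.mul_sum]
      congr 1
      apply Finset.sum_congr rfl
      intro j _
      ring
    rw [e2]
    have e3 : uu β R' p = ∑ j : Fin s, α (e j) * Real.log ‖R (e j) p‖ -
        ∑ j : Fin s, (∑ l ∈ O, α l * (M l (e j) : ℝ) / (M l l : ℝ)) * Real.log ‖R (e j) p‖ := by
      unfold uu
      rw [← Finset.sum_sub_distrib]
      apply Finset.sum_congr rfl
      intro j _
      simp only [β, R']
      ring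
    rw [e3]
    ring
  obtain ⟨κ, hκ⟩ := hcmp
  obtain ⟨t, c0, a, b, hh, C0, hE, hneg⟩ := hpos s F h R' hc hind β hβ
  obtain ⟨p, hp, hp2⟩ := unbounded hE β hneg (σ - κ)
  refine ⟨p, hp, ?_⟩
  rw [hκ p hp]
  linarith

end Pool.Agent.H287.FH.CURVE
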