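import Pool.Agent.H664.FH.Stm
import Pool.Graph.R_seed8.W996.EC.Final

/-! FH project, job CURVE, part A: plane model of a germ of a curve. -/

set_option autoImplicit false

namespace Pool.Agent.H287.FH.CURVE

open Filter Topology Polynomial Pool.Agent Pool.Agent.W996.EC Pool.Agent.W333.ECV Metric

/-- evaluation of `ℂ[X][X]` in a commutative ring -/
noncomputable def ev2 {S : Type} [CommRing S] (c : ℂ →+* S) (a b : S) : ℂ[X][X] →+* S :=
  eval₂RingHom (eval₂RingHom c a) b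

theorem ev2_hom {S S' : Type} [CommRing S] [CommRing S'] (c : ℂ →+* S) (a b : S) (θ : S →+* S') :
    θ.comp (ev2 c a b) = ev2 (θ.comp c) (θ a) (θ b) := by
  unfold ev2
  ext <;> simp

theorem ev2_C (a b : ℂ) : ev2 (RingHom.id ℂ) a b = evalEvalRingHom a b := by
  unfold ev2
  ext <;> simp

theorem ev2_aeval {L : Type} [Field L] [Algebra ℂ L] (a b : L) :
    ev2 (algebraMap ℂ L) a b = (aevalAeval (R := ℂ) a b).toRingHom := by
  unfold ev2
  ext <;> simp

/-- localisation of the coordinate ring at a nonzero element -/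
theorem loc2 {n : ℕ} {L : Type} [Field L] [Algebra ℂ L] {ξ : Fin n → L}
    (d : MvPolynomial (Fin n) ℂ) (hd : MvPolynomial.aeval ξ d ≠ 0) :
    ∃ (R : Type) (_ : CommRing R) (ι : MvPolynomial (Fin n) ℂ →+* R) (Φ : R →+* L),
      (∀ q, Φ (ι q) = MvPolynomial.aeval ξ q) ∧ (∀ w : R, ∃ (k : ℕ) (G : MvPolynomial (Fin n) ℂ), w * ι (d ^ k) = ι G) ∧
      (∀ f g : MvPolynomial (Fin n) ℂ, g ∣ d → ∃ a : R, a * ι g = ι f) ∧
      ∀ p : Fin n → ℂ, MvPolynomial.eval p d ≠ 0 →
        (∀ Q, MvPolynomial.aeval ξ Q = 0 → MvPolynomial.eval p Q = 0) →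
        ∃ Ψ : R →+* ℂ, (∀ q, Ψ (ι q) = MvPolynomial.eval p q) ∧ ∀ w : R, Φ w = 0 → Ψ w = 0 := by
  let R := Localization.Away d
  let ι : MvPolynomial (Fin n) ℂ →+* R := algebraMap _ R
  let Φ : R →+* L := IsLocalization.Away.lift d (g := (MvPolynomial.aeval ξ).toRingHom) (isUnit_iff_ne_zero.mpr hd)
  have hΦ : ∀ G, Φ (ι G) = MvPolynomial.aeval ξ G := fun G => IsLocalization.Away.lift_eq d _ G
  have hsurj : ∀ w : R, ∃ (k : ℕ) (G : MvPolynomial (Fin n) ℂ), w * ι (d ^ k) = ι G := by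
    intro w
    obtain ⟨⟨G, ⟨_, k, rfl⟩⟩, h⟩ := IsLocalization.surj (Submonoid.powers d) w
    exact ⟨k, G, h⟩
  refine ⟨R, inferInstance, ι, Φ, hΦ, hsurj, ?_, ?_⟩
  · intro f g hg
    have hu : IsUnit (ι g) := isUnit_of_dvd_unit (map_dvd ι hg) (IsLocalization.Away.algebraMap_isUnit d)
    refine ⟨ι f * ((hu.unit⁻¹ : Rˣ) : R), ?_⟩
    rw [mul_assoc]
    have : ((hu.unit⁻¹ : Rˣ) : R) * ι g = 1 := hu.val_inv_mul
    rw [this, mul_one]
  · intro p hp hI
    let Ψ : R →+* ℂ := IsLocalization.Away.lift d (g := (MvPolynomial.eval p)) (isUnit_iff_ne_zero.mpr hp)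
    have hΨ : ∀ G, Ψ (ι G) = MvPolynomial.eval p G := fun G => IsLocalization.Away.lift_eq d _ G
    refine ⟨Ψ, hΨ, fun w hw => ?_⟩
    obtain ⟨k, G, h⟩ := hsurj w
    have h1 := congrArg Φ h
    rw [map_mul, hw, zero_mul, hΦ] at h1
    have h2 := hI G h1.symm
    have h3 := congrArg Ψ h
    rw [map_mul, hΨ, hΨ, h2, map_pow] at h3
    exact (mul_eq_zero.mp h3).resolve_right (pow_ne_zero _ hp)

theorem diff_eval {n : ℕ} {U : Set ℂ} {g : ℂ → Fin n → ℂ} (hg : DifferentiableOn ℂ g U)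
    (Q : MvPolynomial (Fin n) ℂ) : DifferentiableOn ℂ (fun z => MvPolynomial.eval (g z) Q) U := by
  induction Q using MvPolynomial.induction_on with
  | C a => simp
  | add p q hp hq => simp only [map_add]; exact hp.add hq
  | mul_X p i hp =>
    simp only [map_mul, MvPolynomial.eval_X]
    exact hp.mul (fun z hz => (differentiableWithinAt_pi.1 (hg z hz)) i)

/-- the ideal of relations -/
def Irel {n : ℕ} (z0 : ℂ) (r : ℝ) (g : ℂ → Fin n → ℂ) : Ideal (MvPolynomial (Fin n) ℂ) where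
  carrier := {Q | ∀ z ∈ ball z0 r, MvPolynomial.eval (g z) Q = 0}
  add_mem' := by intro a b ha hb z hz; rw [map_add, ha z hz, hb z hz, add_zero]
  zero_mem' := by intro z hz; simp
  smul_mem' := by intro a b hb z hz; rw [smul_eq_mul, map_mul, hb z hz, mul_zero]

theorem mem_Irel {n : ℕ} {z0 : ℂ} {r : ℝ} {g : ℂ → Fin n → ℂ} (Q : MvPolynomial (Fin n) ℂ) :
    Q ∈ Irel z0 r g ↔ ∀ z ∈ ball z0 r, MvPolynomial.eval (g z) Q = 0 := Iff.rfl

theorem Irel_prime {n : ℕ} {z0 : ℂ} {r : ℝ} {g : ℂ → Fin n → ℂ} (hr : 0 < r)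
    (hg : DifferentiableOn ℂ g (ball z0 r)) : (Irel z0 r g).IsPrime := by
  refine ⟨?_, ?_⟩
  · intro h
    have h1 : (1 : MvPolynomial (Fin n) ℂ) ∈ Irel z0 r g := by rw [h]; trivial
    have h2 := h1 z0 (mem_ball_self hr)
    simp at h2
  · intro a b hab
    have ha := (diff_eval hg a).analyticOnNhd isOpen_ball
    have hb := (diff_eval hg b).analyticOnNhd isOpen_ball
    exact AnalyticOnNhd.eq_zero_or_eq_zero_of_mul_eq_zero ha hb (fun z hz => by
      have := hab z hz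
      rwa [map_mul] at this) (convex_ball z0 r).isPreconnected

theorem partA {n : ℕ} {z0 : ℂ} {r : ℝ} {g : ℂ → Fin n → ℂ} (hr : 0 < r)
    (hg : DifferentiableOn ℂ g (ball z0 r)) (hg0 : ∀ z ∈ ball z0 r, ∀ l, g z l ≠ 0)
    (hnc : ∃ i, ∃ z ∈ ball z0 r, g z i ≠ g z0 i)
    (hdep : ∀ i l, ∃ f : MvPolynomial (Fin 2) ℂ, f ≠ 0 ∧
      ∀ z ∈ ball z0 r, MvPolynomial.eval ![g z i, g z l] f = 0)
    (Q₀ : MvPolynomial (Fin n) ℂ) (hQ₀ : ∃ z ∈ ball z0 r, MvPolynomial.eval (g z) Q₀ ≠ 0) :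
    ∃ (F : ℂ[X][X]) (h : ℂ[X]) (R : Fin n → ℂ × ℂ → ℂ), Cov F h ∧ (∀ i, Reg (TT F h) (R i)) ∧
      (∀ i, ∀ p ∈ TT F h, R i p ≠ 0) ∧
      (∀ p ∈ TT F h, (∀ Q : MvPolynomial (Fin n) ℂ, (∀ z ∈ ball z0 r, MvPolynomial.eval (g z) Q = 0) →
        MvPolynomial.eval (fun l => R l p) Q = 0) ∧ MvPolynomial.eval (fun l => R l p) Q₀ ≠ 0) ∧
      ∃ z1 ∈ ball z0 r, ∃ a b : ℂ → ℂ, AnalyticAt ℂ a z1 ∧ ContinuousAt b z1 ∧
        (¬ ∀ᶠ z in 𝓝 z1, a z = a z1) ∧
        ∀ᶠ z in 𝓝 z1, (a z, b z) ∈ TT F h ∧ ∀ l, R l (a z, b z) = g z l := by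
  classical
  have h1 := W114.ECR.t_res
  have h2 := W114.ECR.t_cov
  have h4 := W597.EC.t_plane
  have hP := Irel_prime hr hg
  obtain ⟨L, iL, aL, y, hy, hgen⟩ := exists_field (Irel z0 r g) hP
  have hy' : ∀ Q, MvPolynomial.aeval y Q = 0 ↔ ∀ z ∈ ball z0 r, MvPolynomial.eval (g z) Q = 0 :=
    fun Q => (hy Q).trans (mem_Irel Q)
  have hy0 : ∀ l, y l ≠ 0 := by
    intro l h0
    have h5 := (hy' (MvPolynomial.X l)).1 (by rw [MvPolynomial.aeval_X]; exact h0) z0 (mem_ball_self hr)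
    rw [MvPolynomial.eval_X] at h5
    exact hg0 z0 (mem_ball_self hr) l h5
  obtain ⟨i0, zi, hzi, hgi⟩ := hnc
  have htr : Transcendental ℂ (y i0) := by
    intro halg
    obtain ⟨c, hc⟩ := alg_const halg
    have h5 := (hy' (MvPolynomial.X i0 - MvPolynomial.C c)).1 (by
      rw [map_sub, MvPolynomial.aeval_X, MvPolynomial.aeval_C, hc, sub_self])
    apply hgi
    have h6 := h5 zi hzi
    have h7 := h5 z0 (mem_ball_self hr)
    simp only [map_sub, MvPolynomial.eval_X, MvPolynomial.eval_C, sub_eq_zero] at h6 h7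
    rw [h6, h7]
  have hdepL : ∀ i j, ∃ f : MvPolynomial (Fin 2) ℂ, f ≠ 0 ∧ MvPolynomial.aeval ![y i, y j] f = 0 := by
    intro i j
    obtain ⟨f, hf, hf0⟩ := hdep i j
    refine ⟨f, hf, ?_⟩
    have h6 := (hy' (MvPolynomial.rename ![i, j] f)).2 (by
      intro z hz
      rw [MvPolynomial.eval_rename]
      have e1 : (g z ∘ ![i, j] : Fin 2 → ℂ) = ![g z i, g z j] := by
        funext k; fin_cases k <;> rfl
      rw [e1]
      exact hf0 z hz)
    rw [MvPolynomial.aeval_rename] at h6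
    have e2 : (y ∘ ![i, j] : Fin 2 → L) = ![y i, y j] := by
      funext k; fin_cases k <;> rfl
    rwa [e2] at h6
  obtain ⟨F, x0, v0, hF, hFd, hker, -, -, hquot⟩ := h4 L n y ⟨_, htr⟩ hdepL
  -- the evaluation homomorphism
  set φ : ℂ[X][X] →+* L := (aevalAeval (R := ℂ) x0 v0).toRingHom with hφdef
  have hφ : ∀ G, φ G = 0 ↔ F ∣ G := hker
  have hd : ∀ l, ∃ A B : ℂ[X][X], φ B ≠ 0 ∧ y l * φ B = φ A := fun l =>
    hquot (y l) (IntermediateField.subset_adjoin _ _ ⟨l, rfl⟩)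
  choose A B hB hyAB using hd
  have hA : ∀ l, φ (A l) ≠ 0 := by
    intro l; rw [← hyAB]; exact mul_ne_zero (hy0 l) (hB l)
  have hcc : φ.comp (C.comp C) = algebraMap ℂ L := by
    apply RingHom.ext
    intro a
    show φ (C (C a)) = _
    have : (C (C a) : ℂ[X][X]) = algebraMap ℂ ℂ[X][X] a := rfl
    rw [this]
    exact AlgHom.commutes _ _
  have hQL : MvPolynomial.aeval y Q₀ ≠ 0 := by
    intro h0
    obtain ⟨z, hz, hz2⟩ := hQ₀
    exact hz2 ((hy' Q₀).1 h0 z hz)
  obtain ⟨N, hN, hN2⟩ := numer hφ hB hyAB Q₀ (by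
    rw [hcc]; exact hQL)
  -- the set `T`
  set H0 : ℂ[X][X] := (∏ l, A l) * (∏ l, B l) * N with hH0
  have hFH : ¬ F ∣ H0 := by
    rw [← hφ, hH0, map_mul, map_mul, map_prod, map_prod]
    exact mul_ne_zero (mul_ne_zero (Finset.prod_ne_zero_iff.mpr fun l _ => hA l)
      (Finset.prod_ne_zero_iff.mpr fun l _ => hB l)) hN
  obtain ⟨ra, rb, ρ, hρ, hres⟩ := h1 F H0 hF hFd hFH
  obtain ⟨h, hρh, hcov⟩ := h2 F ρ hF hFd hρ
  have hTH : ∀ p ∈ TT F h, H0.evalEval p.1 p.2 ≠ 0 := by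
    intro p hp h0
    have h5 := congrArg (evalEvalRingHom p.1 p.2) hres
    rw [map_add, map_mul, map_mul] at h5
    have h6 : (evalEvalRingHom p.1 p.2) F = 0 := hp.1
    have h7 : (evalEvalRingHom p.1 p.2) H0 = 0 := h0
    rw [h6, h7, mul_zero, mul_zero, add_zero] at h5
    have h8 : (evalEvalRingHom p.1 p.2) (C ρ) = ρ.eval p.1 := by
      show (C ρ).evalEval p.1 p.2 = _
      rw [evalEval_C]
    rw [h8] at h5
    obtain ⟨w, rfl⟩ := hρh
    apply hp.2
    rw [eval_mul, ← h5, zero_mul]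
  have hTABN : ∀ p ∈ TT F h, (∀ l, (A l).evalEval p.1 p.2 ≠ 0) ∧ (∀ l, (B l).evalEval p.1 p.2 ≠ 0) ∧
      N.evalEval p.1 p.2 ≠ 0 := by
    intro p hp
    have h5 : (evalEvalRingHom p.1 p.2) H0 ≠ 0 := hTH p hp
    rw [hH0, map_mul, map_mul, map_prod, map_prod] at h5
    have h6 := left_ne_zero_of_mul h5
    exact ⟨fun l => (Finset.prod_ne_zero_iff.1 (left_ne_zero_of_mul h6)) l (Finset.mem_univ _),
      fun l => (Finset.prod_ne_zero_iff.1 (right_ne_zero_of_mul h6)) l (Finset.mem_univ _),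
      right_ne_zero_of_mul h5⟩
  set R : Fin n → ℂ × ℂ → ℂ := fun l p => (A l).evalEval p.1 p.2 / (B l).evalEval p.1 p.2 with hRdef
  refine ⟨F, h, R, hcov, fun l => ⟨A l, B l, fun p hp => ⟨(hTABN p hp).2.1 l, rfl⟩⟩,
    fun l p hp => div_ne_zero ((hTABN p hp).1 l) ((hTABN p hp).2.1 l), ?_, ?_⟩
  · -- relations on `T`
    intro p hp
    obtain ⟨a1, a2, a3⟩ := hTABN p hp
    refine ⟨fun Q hQ => ?_, hN2 p.1 p.2 hp.1 a2 a3⟩
    obtain ⟨R', _, ι, Φ, y', b1, b2, b3, b4⟩ := exists_loc hφ hB hyAB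
    obtain ⟨Ψ, b5, b6, b7⟩ := b4 p.1 p.2 hp.1 a2
    have e1 : Φ (MvPolynomial.eval₂ (ι.comp (C.comp C)) y' Q) = 0 := by
      rw [MvPolynomial.eval₂_comp_left]
      have c0 : Φ.comp ι = φ := RingHom.ext b1
      have c1 : Φ.comp (ι.comp (C.comp C)) = algebraMap ℂ L := by
        rw [← RingHom.comp_assoc, c0, hcc]
      have c2 : (⇑Φ ∘ y') = y := funext b2
      rw [c1, c2]
      exact (hy' Q).2 hQ
    have e2 := b7 _ e1
    rw [MvPolynomial.eval₂_comp_left] at e2
    have c3 : (Ψ.comp (ι.comp (C.comp C))) = RingHom.id ℂ := by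
      apply RingHom.ext
      intro a
      simp [b5]
    have c4 : (⇑Ψ ∘ y') = fun l => R l p := by
      funext i; exact b6 i
    rw [c3, c4] at e2
    exact e2
  · -- the germ
    obtain ⟨f1, g1, hg1, hx0⟩ := hgen x0
    obtain ⟨f2, g2, hg2, hv0⟩ := hgen v0
    have hdne : MvPolynomial.aeval y (g1 * g2) ≠ 0 := by rw [map_mul]; exact mul_ne_zero hg1 hg2
    obtain ⟨R1, _, ι, Φ, c1, c2, c3, c4⟩ := loc2 (g1 * g2) hdne
    obtain ⟨a', ha'⟩ := c3 f1 g1 (dvd_mul_right _ _)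
    obtain ⟨b', hb'⟩ := c3 f2 g2 (dvd_mul_left _ _)
    have hΦa : Φ a' = x0 := by
      have := congrArg Φ ha'
      rw [map_mul, c1, c1, ← hx0] at this
      exact mul_right_cancel₀ hg1 this
    have hΦb : Φ b' = v0 := by
      have := congrArg Φ hb'
      rw [map_mul, c1, c1, ← hv0] at this
      exact mul_right_cancel₀ hg2 this
    have hΦc : Φ.comp (ι.comp MvPolynomial.C) = algebraMap ℂ L := by
      apply RingHom.ext
      intro a
      show Φ (ι (MvPolynomial.C a)) = _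
      rw [c1, MvPolynomial.aeval_C]
    have hΦev : ∀ G, Φ (ev2 (ι.comp MvPolynomial.C) a' b' G) = φ G := by
      intro G
      have := congrArg (fun θ => θ G) (ev2_hom (ι.comp MvPolynomial.C) a' b' Φ)
      rw [hΦc, hΦa, hΦb, ev2_aeval] at this
      exact this
    -- `h` does not vanish at the generic point
    have hh0 : φ (C h) ≠ 0 := by
      rw [Ne, hφ]
      rintro ⟨w, hw⟩
      have hne : (C h : ℂ[X][X]) ≠ 0 := by rw [Ne, C_eq_zero]; exact hcov.hne
      have h5 := congrArg natDegree hw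
      rw [natDegree_C] at h5
      have hw0 : w ≠ 0 := by rintro rfl; rw [mul_zero] at hw; exact hne hw
      rw [natDegree_mul hF.ne_zero hw0] at h5
      omega
    obtain ⟨k, G, hG⟩ := c2 (ev2 (ι.comp MvPolynomial.C) a' b' (C h))
    have hGne : MvPolynomial.aeval y G ≠ 0 := by
      rw [← c1, ← hG, map_mul, hΦev, c1, map_pow]
      exact mul_ne_zero hh0 (pow_ne_zero _ hdne)
    -- a point where everything is nonzero
    obtain ⟨z1, hz1, hz1'⟩ : ∃ z ∈ ball z0 r, MvPolynomial.eval (g z) (g1 * g2 * G) ≠ 0 := by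
      by_contra hcon
      push Not at hcon
      have := (hy' _).2 hcon
      rw [map_mul] at this
      exact mul_ne_zero hdne hGne this
    set a : ℂ → ℂ := fun z => MvPolynomial.eval (g z) f1 / MvPolynomial.eval (g z) g1 with hadef
    set b : ℂ → ℂ := fun z => MvPolynomial.eval (g z) f2 / MvPolynomial.eval (g z) g2 with hbdef
    have han : ∀ Q : MvPolynomial (Fin n) ℂ, AnalyticAt ℂ (fun z => MvPolynomial.eval (g z) Q) z1 := fun Q =>
      (diff_eval hg Q).analyticOnNhd isOpen_ball z1 hz1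
    have hz1g1 : MvPolynomial.eval (g z1) g1 ≠ 0 := by
      rw [map_mul, map_mul] at hz1'
      exact left_ne_zero_of_mul (left_ne_zero_of_mul hz1')
    have hz1g2 : MvPolynomial.eval (g z1) g2 ≠ 0 := by
      rw [map_mul, map_mul] at hz1'
      exact right_ne_zero_of_mul (left_ne_zero_of_mul hz1')
    have haan : AnalyticAt ℂ a z1 := (han f1).div (han g1) hz1g1
    have hban : AnalyticAt ℂ b z1 := (han f2).div (han g2) hz1g2
    -- what happens at a good point
    have hgood : ∀ z ∈ ball z0 r, MvPolynomial.eval (g z) (g1 * g2 * G) ≠ 0 →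
        (a z, b z) ∈ TT F h ∧ ∀ l, R l (a z, b z) = g z l := by
      intro z hz hzg
      rw [map_mul] at hzg
      have hzd := left_ne_zero_of_mul hzg
      have hzG := right_ne_zero_of_mul hzg
      obtain ⟨Ψ, d1, d2⟩ := c4 (g z) hzd (fun Q hQ => (hy' Q).1 hQ z hz)
      have hzg1 : MvPolynomial.eval (g z) g1 ≠ 0 := by
        rw [map_mul] at hzd; exact left_ne_zero_of_mul hzd
      have hzg2 : MvPolynomial.eval (g z) g2 ≠ 0 := by
        rw [map_mul] at hzd; exact right_ne_zero_of_mul hzd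
      have hΨa : Ψ a' = a z := by
        have := congrArg Ψ ha'
        rw [map_mul, d1, d1] at this
        exact eq_div_of_mul_eq hzg1 this
      have hΨb : Ψ b' = b z := by
        have := congrArg Ψ hb'
        rw [map_mul, d1, d1] at this
        exact eq_div_of_mul_eq hzg2 this
      have hΨc : Ψ.comp (ι.comp MvPolynomial.C) = RingHom.id ℂ := by
        apply RingHom.ext
        intro w
        show Ψ (ι (MvPolynomial.C w)) = _
        rw [d1, MvPolynomial.eval_C]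
        rfl
      have hΨev : ∀ G, Ψ (ev2 (ι.comp MvPolynomial.C) a' b' G) = G.evalEval (a z) (b z) := by
        intro G
        have := congrArg (fun θ => θ G) (ev2_hom (ι.comp MvPolynomial.C) a' b' Ψ)
        rw [hΨc, hΨa, hΨb, ev2_C] at this
        exact this
      have hFz : F.evalEval (a z) (b z) = 0 := by
        rw [← hΨev]
        apply d2
        rw [hΦev, hφ]
      have hhz : h.eval (a z) ≠ 0 := by
        have h5 := congrArg Ψ hG
        rw [map_mul, hΨev, d1, d1] at h5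
        intro h0
        have h6 : (C h : ℂ[X][X]).evalEval (a z) (b z) = 0 := by rw [evalEval_C, h0]
        rw [h6, zero_mul] at h5
        exact hzG h5.symm
      have hT : (a z, b z) ∈ TT F h := ⟨hFz, hhz⟩
      refine ⟨hT, fun l => ?_⟩
      have h7 : Ψ (ι (MvPolynomial.X l) * ev2 (ι.comp MvPolynomial.C) a' b' (B l) -
          ev2 (ι.comp MvPolynomial.C) a' b' (A l)) = 0 := by
        apply d2
        rw [map_sub, map_mul, c1, MvPolynomial.aeval_X, hΦev, hΦev, hyAB, sub_self]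
      rw [map_sub, map_mul, d1, MvPolynomial.eval_X, hΨev, hΨev, sub_eq_zero] at h7
      show (A l).evalEval (a z) (b z) / (B l).evalEval (a z) (b z) = g z l
      rw [← h7, mul_div_cancel_right₀ _ ((hTABN _ hT).2.1 l)]
    refine ⟨z1, hz1, a, b, haan, hban.continuousAt, ?_, ?_⟩
    · -- `a` is not constant
      intro hev
      have h5 : ∀ᶠ z in 𝓝 z1, MvPolynomial.eval (g z) (f1 - MvPolynomial.C (a z1) * g1) = 0 := by
        filter_upwards [hev, (han g1).continuousAt.eventually_ne hz1g1] with z hz hz2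
        rw [map_sub, map_mul, MvPolynomial.eval_C, ← hz, sub_eq_zero]
        show _ = MvPolynomial.eval (g z) f1 / MvPolynomial.eval (g z) g1 * _
        rw [div_mul_cancel₀ _ hz2]
      have h6 : MvPolynomial.aeval y (f1 - MvPolynomial.C (a z1) * g1) = 0 := by
        rw [hy']
        exact ((diff_eval hg _).analyticOnNhd isOpen_ball).eqOn_zero_of_preconnected_of_eventuallyEq_zero
          (convex_ball z0 r).isPreconnected hz1 h5
      rw [map_sub, map_mul, MvPolynomial.aeval_C, ← hx0, ← sub_mul] at h6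
      have h7 := (mul_eq_zero.1 h6).resolve_right hg1
      have h8 : φ (C (X - C (a z1))) = 0 := by
        show aevalAeval x0 v0 (C (X - C (a z1))) = 0
        rw [aevalAeval_C, map_sub, aeval_X, aeval_C]
        exact h7
      rw [hφ] at h8
      obtain ⟨w, hw⟩ := h8
      have hne : (C (X - C (a z1)) : ℂ[X][X]) ≠ 0 := by
        rw [Ne, C_eq_zero]; exact X_sub_C_ne_zero _
      have h9 := congrArg natDegree hw
      rw [natDegree_C] at h9
      have hw0 : w ≠ 0 := by rintro rfl; rw [mul_zero] at hw; exact hne hw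
      rw [natDegree_mul hF.ne_zero hw0] at h9
      omega
    · filter_upwards [isOpen_ball.mem_nhds hz1, (han (g1 * g2 * G)).continuousAt.eventually_ne hz1'] with z hz hz2
      exact hgood z hz hz2

end Pool.Agent.H287.FH.CURVE
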