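import Pool.Agent.H664.FH.Stm
import Pool.Graph.R_pool_sql_team_seeded_3997aac3.Q206.EG.AlgPoly

/-! FH project, job REL: relations between two of the functions `y`. -/

set_option autoImplicit false

namespace Pool.Agent.H287.FH

open MvPolynomial Filter Topology Metric Pool.Agent.W996.EC Pool.Agent.Q72.EG Pool.Agent.H664.FH

theorem rel_aux {n : ℕ} {E : Type} [Field E] [Algebra ℂ E] (G : Cv n E) (i l : Fin n)
    (F0 : Finset (ℕ × ℕ)) (c : ℕ × ℕ → MvPolynomial (Fin n) ℂ)
    (h : ∑ e ∈ F0, aeval G.x (c e) * G.y i ^ e.1 * G.y l ^ e.2 = 0)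
    (hne : ∃ e ∈ F0, aeval G.x (c e) ≠ 0) :
    ∃ F : Finset (ℕ × ℕ), F ⊆ F0 ∧ F.Nonempty ∧ (∀ e ∈ F, ¬ G.P ∣ c e) ∧
      ∀ x p : Fin n → ℂ, Sum.elim x p ∈ Pt (Sum.elim G.x G.y) →
        ∑ e ∈ F, eval x (c e) * p i ^ e.1 * p l ^ e.2 = 0 := by
  classical
  refine ⟨F0.filter (fun e => ¬ G.P ∣ c e), Finset.filter_subset _ _, ?_, fun e he => (Finset.mem_filter.1 he).2, ?_⟩
  · obtain ⟨e, he, he2⟩ := hne
    exact ⟨e, Finset.mem_filter.2 ⟨he, fun h0 => he2 ((G.hx _).2 h0)⟩⟩
  · intro x p hp
    have hP : eval x G.P = 0 := by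
      have h1 := hp (rename Sum.inl G.P) (by
        rw [aeval_rename]
        exact (G.hx _).2 dvd_rfl)
      rw [eval_rename] at h1
      exact h1
    have h2 := hp (∑ e ∈ F0, rename Sum.inl (c e) * X (Sum.inr i) ^ e.1 * X (Sum.inr l) ^ e.2) (by
      rw [map_sum, ← h]
      apply Finset.sum_congr rfl
      intro e _
      rw [map_mul, map_mul, map_pow, map_pow, aeval_X, aeval_X, aeval_rename]
      rfl)
    rw [map_sum] at h2
    rw [Finset.sum_filter]
    refine Eq.trans ?_ h2
    apply Finset.sum_congr rfl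
    intro e _
    rw [map_mul, map_mul, map_pow, map_pow, eval_X, eval_X, eval_rename]
    have e1 : (Sum.elim x p ∘ Sum.inl : Fin n → ℂ) = x := rfl
    rw [e1]
    by_cases h3 : G.P ∣ c e
    · rw [if_neg (not_not.2 h3)]
      obtain ⟨q, hq⟩ := h3
      rw [hq, map_mul, hP, zero_mul, zero_mul, zero_mul]
    · rw [if_pos h3]
      rfl

theorem rel : Pool.Agent.H664.FH.S_rel := by
  classical
  intro n E _ _ G i l
  by_cases hT : G.T i
  · have hal : IsAlgebraic (IntermediateField.adjoin ℂ (Set.range (oe (G.y i) G.x))) (G.y l) := by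
      have h1 := G.tr1 (G.y i) (G.y l) hT
      have h2 : (insert (G.y i) (Set.range G.x) : Set E) = Set.range (oe (G.y i) G.x) := by
        ext e
        simp only [Set.mem_insert_iff, Set.mem_range]
        constructor
        · rintro (rfl | ⟨k, rfl⟩)
          · exact ⟨none, rfl⟩
          · exact ⟨some k, rfl⟩
        · rintro ⟨k | k, rfl⟩
          · exact Or.inl rfl
          · exact Or.inr ⟨k, rfl⟩
      rw [h2] at h1
      exact h1
    obtain ⟨A, ⟨b0, hb0⟩, hA⟩ := Pool.Agent.Q206.EG.alg_poly (oe (G.y i) G.x) (G.y l) hal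
    set N : ℕ := ∑ b ∈ Finset.range (A.natDegree + 1), ((optionEquivLeft ℂ (Fin n) (A.coeff b)).natDegree + 1) with hN
    have hNb : ∀ b ∈ Finset.range (A.natDegree + 1), (optionEquivLeft ℂ (Fin n) (A.coeff b)).natDegree + 1 ≤ N := by
      intro b hb
      exact Finset.single_le_sum (f := fun b => (optionEquivLeft ℂ (Fin n) (A.coeff b)).natDegree + 1)
        (fun _ _ => Nat.zero_le _) hb
    have hco : ∀ b ∈ Finset.range (A.natDegree + 1), aeval (oe (G.y i) G.x) (A.coeff b) =
        ∑ a ∈ Finset.range N, aeval G.x (cf (A.coeff b) a) * G.y i ^ a := by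
      intro b hb
      rw [aeval_oe_sum]
      apply Finset.sum_subset
      · intro a ha
        rw [Finset.mem_range] at ha ⊢
        exact lt_of_lt_of_le ha (hNb b hb)
      · intro a _ ha
        rw [Finset.mem_range, not_lt] at ha
        have : cf (A.coeff b) a = 0 := by
          unfold cf
          apply Polynomial.coeff_eq_zero_of_natDegree_lt
          omega
        rw [this, map_zero, zero_mul]
    have hb0r : b0 ∈ Finset.range (A.natDegree + 1) := by
      rw [Finset.mem_range]
      by_contra hcon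
      apply hb0
      rw [Polynomial.coeff_eq_zero_of_natDegree_lt (by omega), map_zero]
    obtain ⟨F, hF1, hF2, hF3, hF4⟩ := rel_aux G i l (Finset.range N ×ˢ Finset.range (A.natDegree + 1))
      (fun e => cf (A.coeff e.2) e.1) (by
        rw [Finset.sum_product_right, ← hA, Polynomial.eval_map, Polynomial.eval₂_eq_sum_range]
        apply Finset.sum_congr rfl
        intro b hb
        have h3 : ((aeval (oe (G.y i) G.x) : MvPolynomial (Option (Fin n)) ℂ →ₐ[ℂ] E).toRingHom (A.coeff b)) =
            aeval (oe (G.y i) G.x) (A.coeff b) := rfl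
        rw [h3, hco b hb, Finset.sum_mul]) (by
        rw [hco b0 hb0r] at hb0
        obtain ⟨a, ha, ha2⟩ := Finset.exists_ne_zero_of_sum_ne_zero hb0
        exact ⟨(a, b0), Finset.mem_product.2 ⟨ha, hb0r⟩, left_ne_zero_of_mul ha2⟩)
    exact ⟨F, _, hF2, hF3, fun h => absurd hT h, hF4⟩
  · have hal : IsAlgebraic (IntermediateField.adjoin ℂ (Set.range G.x)) (G.y i) := by
      by_contra hcon
      exact hT hcon
    obtain ⟨A, ⟨b0, hb0⟩, hA⟩ := Pool.Agent.Q206.EG.alg_poly G.x (G.y i) hal
    have hb0r : b0 ∈ Finset.range (A.natDegree + 1) := by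
      rw [Finset.mem_range]
      by_contra hcon
      apply hb0
      rw [Polynomial.coeff_eq_zero_of_natDegree_lt (by omega), map_zero]
    obtain ⟨F, hF1, hF2, hF3, hF4⟩ := rel_aux G i l (Finset.range (A.natDegree + 1) ×ˢ {0})
      (fun e => A.coeff e.1) (by
        rw [Finset.sum_product, ← hA, Polynomial.eval_map, Polynomial.eval₂_eq_sum_range]
        apply Finset.sum_congr rfl
        intro b hb
        rw [Finset.sum_singleton, pow_zero, mul_one]
        rfl) ⟨(b0, 0), Finset.mem_product.2 ⟨hb0r, Finset.mem_singleton_self 0⟩, hb0⟩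
    refine ⟨F, _, hF2, hF3, fun _ e he => ?_, hF4⟩
    have := (Finset.mem_product.1 (hF1 he)).2
    rwa [Finset.mem_singleton] at this

end Pool.Agent.H287.FH
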